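import Mathlib

/-!
# MP_48292c_co : free copies of a graph under disjoint edge maps

We disprove `g_0(G) <= C (m / sqrt n + n)` by taking a clique on `s^3` vertices and attaching
`s^4 - s^3` pendant vertices to one of its vertices.
-/

namespace Pool.Agent.Results.MP_48292c_co.FreeCopiesDisproof

open Finset

/-- The edges of `K_N`: the two-element subsets of `Fin N`. -/
abbrev Edge (N : ℕ) : Type := {e : Finset (Fin N) // e.card = 2}

/-- `F_{N,0}`: the maps sending every edge of `K_N` to an edge disjoint from it. -/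
def DisjointMap {N : ℕ} (f : Edge N → Edge N) : Prop := ∀ e : Edge N, Disjoint (f e).1 e.1

/-- `e` is an edge of the copy of `G` in `K_N` given by the injection `φ`. -/
def InCopy {V : Type} {N : ℕ} (G : SimpleGraph V) (φ : V ↪ Fin N) (e : Edge N) : Prop :=
  ∃ u v : V, G.Adj u v ∧ e.1 = {φ u, φ v}

/-- The copy of `G` given by `φ` is `f`-free: no edge of the copy is sent to an edge of the
copy. -/
def FreeCopy {V : Type} {N : ℕ} (G : SimpleGraph V) (f : Edge N → Edge N) (φ : V ↪ Fin N) : Prop :=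
  ∀ e : Edge N, InCopy G φ e → ¬ InCopy G φ (f e)

/-- `N` has the property in the definition of `g_0(G)`: `F_{N,0}` is non-empty and every
`f` in `F_{N,0}` has an `f`-free copy of `G`. -/
def Good {V : Type} (G : SimpleGraph V) (N : ℕ) : Prop :=
  (∃ f : Edge N → Edge N, DisjointMap f) ∧
    ∀ f : Edge N → Edge N, DisjointMap f → ∃ φ : V ↪ Fin N, FreeCopy G f φ

/-- `g_0(G)`, the least `N` which is good for `G`. -/
noncomputable def g0 {V : Type} (G : SimpleGraph V) : ℕ∞ :=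
  ⨅ (N : ℕ) (_ : Good G N), (N : ℕ∞)

/-! ## Counting -/

lemma card_subsets_in {N : ℕ} (B : Finset (Fin N)) :
    ((univ : Finset (Edge N)).filter (fun e => e.1 ⊆ B)).card = B.card.choose 2 := by
  rw [← Finset.card_powersetCard]
  apply Finset.card_bij (fun e _ => e.1)
  · intro e he
    rw [Finset.mem_powersetCard]
    exact ⟨(Finset.mem_filter.1 he).2, e.2⟩
  · intro e _ e' _ h
    exact Subtype.ext h
  · intro s hs
    rw [Finset.mem_powersetCard] at hs
    exact ⟨⟨s, hs.2⟩, Finset.mem_filter.2 ⟨Finset.mem_univ _, hs.1⟩, rfl⟩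

lemma card_disjoint {N : ℕ} (e : Edge N) :
    ((univ : Finset (Edge N)).filter (fun e' => Disjoint e'.1 e.1)).card
      = (N - 2).choose 2 := by
  have h := card_subsets_in (e.1)ᶜ
  rw [Finset.card_compl, Fintype.card_fin, e.2] at h
  rw [← h]
  congr 1
  ext e'
  simp only [Finset.mem_filter, Finset.mem_univ, true_and]
  rw [Finset.subset_compl_iff_disjoint_right]

lemma card_disjoint_in {N : ℕ} (A : Finset (Fin N)) (e : Edge N) (he : e.1 ⊆ A) :
    ((univ : Finset (Edge N)).filter (fun e' => Disjoint e'.1 e.1 ∧ e'.1 ⊆ A)).card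
      = (A.card - 2).choose 2 := by
  have h := card_subsets_in (A \ e.1)
  rw [Finset.card_sdiff_of_subset he, e.2] at h
  rw [← h]
  congr 1
  ext e'
  simp only [Finset.mem_filter, Finset.mem_univ, true_and]
  rw [Finset.subset_sdiff, and_comm]

lemma card_disjoint_notin {N : ℕ} (A : Finset (Fin N)) (e : Edge N) (he : e.1 ⊆ A) :
    ((univ : Finset (Edge N)).filter (fun e' => Disjoint e'.1 e.1 ∧ ¬ e'.1 ⊆ A)).card
      = (N - 2).choose 2 - (A.card - 2).choose 2 := by
  rw [← card_disjoint e, ← card_disjoint_in A e he]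
  have h := Finset.card_filter_add_card_filter_not
    (s := (univ : Finset (Edge N)).filter (fun e' => Disjoint e'.1 e.1))
    (p := fun e' => e'.1 ⊆ A)
  rw [Finset.filter_filter, Finset.filter_filter] at h
  omega

/-- the first moment argument -/
lemma exists_map {N a : ℕ} (hN : 4 ≤ N)
    (hlt : N.choose a * ((N - 2).choose 2 - (a - 2).choose 2) ^ (a.choose 2)
      < ((N - 2).choose 2) ^ (a.choose 2)) :
    ∃ f : Edge N → Edge N, DisjointMap f ∧
      ∀ A : Finset (Fin N), A.card = a → ∃ e : Edge N, e.1 ⊆ A ∧ (f e).1 ⊆ A := by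
  classical
  set M := (N - 2).choose 2 with hM
  set r := (a - 2).choose 2 with hr
  set c := a.choose 2 with hc
  have hMpos : 0 < M := Nat.choose_pos (by omega)
  let T : Edge N → Finset (Edge N) := fun e => univ.filter (fun e' => Disjoint e'.1 e.1)
  let Bad : Finset (Fin N) → Finset (Edge N → Edge N) := fun A =>
    Fintype.piFinset (fun e => if e.1 ⊆ A then
      univ.filter (fun e' : Edge N => Disjoint e'.1 e.1 ∧ ¬ e'.1 ⊆ A) else T e)
  have hEc : Fintype.card (Edge N) = N.choose 2 := by simp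
  have hΩ : (Fintype.piFinset T).card = M ^ (N.choose 2) := by
    rw [Fintype.card_piFinset]
    simp only [T, card_disjoint]
    rw [Finset.prod_const, Finset.card_univ, hEc]
  have hBad : ∀ A ∈ Finset.powersetCard a (univ : Finset (Fin N)),
      (Bad A).card = (M - r) ^ c * M ^ (N.choose 2 - c) := by
    intro A hA
    have hAc : A.card = a := (Finset.mem_powersetCard.1 hA).2
    rw [Fintype.card_piFinset]
    have h1 : ∀ e : Edge N, (if e.1 ⊆ A then
        univ.filter (fun e' : Edge N => Disjoint e'.1 e.1 ∧ ¬ e'.1 ⊆ A) else T e).card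
        = if e.1 ⊆ A then M - r else M := by
      intro e
      split_ifs with h
      · rw [card_disjoint_notin A e h, hAc]
      · exact card_disjoint e
    rw [Finset.prod_congr rfl (fun e _ => h1 e), Finset.prod_ite, Finset.prod_const,
      Finset.prod_const, card_subsets_in, hAc]
    congr 2
    have h2 := Finset.card_filter_add_card_filter_not (s := (univ : Finset (Edge N)))
      (p := fun e => e.1 ⊆ A)
    rw [card_subsets_in, hAc, Finset.card_univ, hEc] at h2
    omega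
  have hsum : ∑ A ∈ Finset.powersetCard a (univ : Finset (Fin N)), (Bad A).card
      < (Fintype.piFinset T).card := by
    rw [Finset.sum_congr rfl hBad, Finset.sum_const, Finset.card_powersetCard, Finset.card_univ,
      Fintype.card_fin, smul_eq_mul, hΩ]
    rcases Nat.lt_or_ge N a with hNa | hNa
    · rw [Nat.choose_eq_zero_of_lt hNa, zero_mul]
      positivity
    · have hcle : c ≤ N.choose 2 := Nat.choose_le_choose 2 hNa
      have e1 : M ^ (N.choose 2) = M ^ c * M ^ (N.choose 2 - c) := by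
        rw [← pow_add]
        congr 1
        omega
      rw [e1, ← mul_assoc]
      exact Nat.mul_lt_mul_of_pos_right hlt (by positivity)
  have hunion : ((Finset.powersetCard a (univ : Finset (Fin N))).biUnion Bad).card
      < (Fintype.piFinset T).card := lt_of_le_of_lt Finset.card_biUnion_le hsum
  obtain ⟨f, hf, hfn⟩ := Finset.exists_mem_notMem_of_card_lt_card hunion
  refine ⟨f, ?_, ?_⟩
  · intro e
    have := Fintype.mem_piFinset.1 hf e
    exact (Finset.mem_filter.1 this).2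
  · intro A hA
    by_contra hcon
    push Not at hcon
    apply hfn
    rw [Finset.mem_biUnion]
    refine ⟨A, Finset.mem_powersetCard.2 ⟨Finset.subset_univ _, hA⟩, ?_⟩
    rw [Fintype.mem_piFinset]
    intro e
    have hfe := (Finset.mem_filter.1 (Fintype.mem_piFinset.1 hf e)).2
    split_ifs with h
    · rw [Finset.mem_filter]
      exact ⟨Finset.mem_univ _, hfe, hcon e h⟩
    · exact Fintype.mem_piFinset.1 hf e

/-- A clique on the vertices `0, ..., a-1` of `Fin n`, with all other vertices attached to `0` as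
pendant vertices. -/
def cliqueStar (n a : ℕ) : SimpleGraph (Fin n) where
  Adj u v := u ≠ v ∧ (u.val = 0 ∨ v.val = 0 ∨ (u.val < a ∧ v.val < a))
  symm := ⟨by
    rintro u v ⟨h1, h2⟩
    exact ⟨h1.symm, by tauto⟩⟩
  loopless := ⟨by
    rintro u ⟨h1, _⟩
    exact h1 rfl⟩

/-- If `N` is good for `cliqueStar n a` with `a <= n` and `4 <= N`, then the first moment
inequality fails. -/
lemma good_imp {n a N : ℕ} (han : a ≤ n) (hN : 4 ≤ N) (h : Good (cliqueStar n a) N) :
    ((N - 2).choose 2) ^ (a.choose 2) ≤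
      N.choose a * ((N - 2).choose 2 - (a - 2).choose 2) ^ (a.choose 2) := by
  by_contra hcon
  push Not at hcon
  obtain ⟨f, hf, hfA⟩ := exists_map hN hcon
  obtain ⟨φ, hφ⟩ := h.2 f hf
  obtain ⟨e, he1, he2⟩ := hfA ((univ : Finset (Fin a)).map ((Fin.castLEEmb han).trans φ)) (by simp)
  have key : ∀ e' : Edge N, e'.1 ⊆ (univ : Finset (Fin a)).map ((Fin.castLEEmb han).trans φ) →
      InCopy (cliqueStar n a) φ e' := by
    intro e' he'
    obtain ⟨x, y, hxy, hexy⟩ := Finset.card_eq_two.1 e'.2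
    have hx : x ∈ e'.1 := by rw [hexy]; simp
    have hy : y ∈ e'.1 := by rw [hexy]; simp
    have hx' := he' hx
    have hy' := he' hy
    rw [Finset.mem_map] at hx' hy'
    obtain ⟨i, _, rfl⟩ := hx'
    obtain ⟨j, _, rfl⟩ := hy'
    refine ⟨Fin.castLE han i, Fin.castLE han j, ⟨?_, Or.inr (Or.inr ⟨i.2, j.2⟩)⟩, hexy⟩
    intro hij
    apply hxy
    show φ (Fin.castLE han i) = φ (Fin.castLE han j)
    rw [hij]
  exact hφ e (key e he1) (key (f e) he2)

/-! ## The numerical part -/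

lemma two_mul_choose_two (x : ℕ) (_hx : 1 ≤ x) :
    ((x.choose 2 : ℕ) : ℝ) = (x : ℝ) * ((x : ℝ) - 1) / 2 := by
  rw [Nat.cast_choose_two]

lemma numeric {N a : ℕ} (ha : 6 ≤ a) (hN : 4 ≤ N)
    (h : (a : ℝ) * Real.log N < (a : ℝ) ^ 4 / (8 * (N : ℝ) ^ 2)) :
    N.choose a * ((N - 2).choose 2 - (a - 2).choose 2) ^ (a.choose 2)
      < ((N - 2).choose 2) ^ (a.choose 2) := by
  set M := (N - 2).choose 2 with hM
  set r := (a - 2).choose 2 with hr
  set c := a.choose 2 with hc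
  have hMpos : 0 < M := Nat.choose_pos (by omega)
  rcases Nat.lt_or_ge N a with hNa | hNa
  · rw [Nat.choose_eq_zero_of_lt hNa, zero_mul]
    positivity
  have hrM : r ≤ M := Nat.choose_le_choose 2 (by omega)
  have haR : (6:ℝ) ≤ a := by exact_mod_cast ha
  have hNR : (a:ℝ) ≤ N := by exact_mod_cast hNa
  have hNpos : (0:ℝ) < N := by linarith
  have hMR : (M : ℝ) = ((N:ℝ) - 2) * ((N:ℝ) - 3) / 2 := by
    rw [hM, two_mul_choose_two _ (by omega), Nat.cast_sub (by omega)]
    push_cast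
    ring
  have hrR : (r : ℝ) = ((a:ℝ) - 2) * ((a:ℝ) - 3) / 2 := by
    rw [hr, two_mul_choose_two _ (by omega), Nat.cast_sub (by omega)]
    push_cast
    ring
  have hcR : (c : ℝ) = (a:ℝ) * ((a:ℝ) - 1) / 2 := by
    rw [hc, two_mul_choose_two _ (by omega)]
  have hMposR : (0:ℝ) < M := by exact_mod_cast hMpos
  have hrpos : (0:ℝ) < r := by
    rw [hrR]; nlinarith
  -- the exponent
  have hexp : (a : ℝ) ^ 4 / (8 * (N : ℝ) ^ 2) ≤ (r : ℝ) / M * c := by
    have h1 : (r:ℝ) / ((N:ℝ) ^ 2 / 2) ≤ (r:ℝ) / M := by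
      apply div_le_div_of_nonneg_left hrpos.le hMposR
      rw [hMR]
      nlinarith
    have h2 : (r:ℝ) / ((N:ℝ) ^ 2 / 2) * c ≤ (r:ℝ) / M * c :=
      mul_le_mul_of_nonneg_right h1 (Nat.cast_nonneg c)
    refine le_trans ?_ h2
    have h3 : (r:ℝ) / ((N:ℝ) ^ 2 / 2) * c = (4 * (r * c * 2) ) / (4 * (N:ℝ) ^ 2) := by
      field_simp
    rw [h3, hrR, hcR]
    rw [div_le_div_iff₀ (by positivity) (by positivity)]
    have h4 : (a:ℝ) ^ 3 ≤ 4 * (((a:ℝ) - 1) * ((a:ℝ) - 2) * ((a:ℝ) - 3)) := by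
      obtain ⟨b, hb, hab⟩ : ∃ b : ℝ, 0 ≤ b ∧ (a:ℝ) = b + 6 := ⟨(a:ℝ) - 6, by linarith, by ring⟩
      rw [hab]
      nlinarith [mul_nonneg hb hb, mul_nonneg (mul_nonneg hb hb) hb]
    have h5 : (a:ℝ) ^ 4 ≤ 4 * ((a:ℝ) * ((a:ℝ) - 1) * ((a:ℝ) - 2) * ((a:ℝ) - 3)) := by
      have := mul_le_mul_of_nonneg_left h4 (by linarith : (0:ℝ) ≤ a)
      nlinarith
    have h6 : (0:ℝ) ≤ 4 * (N:ℝ) ^ 2 := by positivity
    nlinarith [mul_le_mul_of_nonneg_right h5 h6]
  have hlt : (a : ℝ) * Real.log N < (r : ℝ) / M * c := lt_of_lt_of_le h hexp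
  have hchoose : (N.choose a : ℝ) ≤ Real.exp ((a : ℝ) * Real.log N) := by
    have h1 : (N.choose a : ℝ) ≤ (N:ℝ) ^ a := by
      exact_mod_cast Nat.choose_le_pow N a
    refine h1.trans (le_of_eq ?_)
    rw [mul_comm, Real.exp_mul, Real.exp_log hNpos, Real.rpow_natCast]
  have hpow : ((M - r : ℕ) : ℝ) ^ c ≤ (M:ℝ) ^ c * Real.exp (-((r : ℝ) / M * c)) := by
    have h1 : ((M - r : ℕ) : ℝ) = M * (1 - (r:ℝ) / M) := by
      rw [Nat.cast_sub hrM]
      field_simp
    have h2 : (1 - (r:ℝ) / M) ≤ Real.exp (-((r:ℝ) / M)) := Real.one_sub_le_exp_neg _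
    have h3 : (0:ℝ) ≤ 1 - (r:ℝ) / M := by
      have : (r:ℝ) / M ≤ 1 := by
        rw [div_le_one hMposR]
        exact_mod_cast hrM
      linarith
    rw [h1, mul_pow]
    apply mul_le_mul_of_nonneg_left _ (by positivity)
    calc (1 - (r:ℝ) / M) ^ c ≤ (Real.exp (-((r:ℝ) / M))) ^ c := pow_le_pow_left₀ h3 h2 c
      _ = Real.exp (-((r : ℝ) / M * c)) := by
        rw [← Real.exp_nat_mul]
        congr 1
        ring
  have hfinal : (N.choose a : ℝ) * ((M - r : ℕ) : ℝ) ^ c < (M:ℝ) ^ c := by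
    calc (N.choose a : ℝ) * ((M - r : ℕ) : ℝ) ^ c
        ≤ Real.exp ((a : ℝ) * Real.log N) * ((M:ℝ) ^ c * Real.exp (-((r : ℝ) / M * c))) :=
          mul_le_mul hchoose hpow (by positivity) (Real.exp_pos _).le
      _ = (M:ℝ) ^ c * Real.exp ((a : ℝ) * Real.log N - (r : ℝ) / M * c) := by
          rw [sub_eq_add_neg, Real.exp_add]
          ring
      _ < (M:ℝ) ^ c * 1 := by
          apply mul_lt_mul_of_pos_left _ (by positivity)
          rw [Real.exp_lt_one_iff]
          linarith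
      _ = (M:ℝ) ^ c := mul_one _
  exact_mod_cast hfinal

/-- For every `K >= 1` there is `s >= 2` with `8 K^2 log (K s^4) < s`. -/
lemma exists_large (K : ℝ) (hK : 1 ≤ K) : ∃ s : ℕ, 2 ≤ s ∧
    8 * K ^ 2 * (Real.log K + 4 * Real.log s) < s := by
  have hK2 : (0:ℝ) < 64 * K ^ 2 := by positivity
  have h1 := (Real.isLittleO_log_id_atTop.bound (show (0:ℝ) < 1 / (64 * K ^ 2) by positivity))
  have h2 := h1.and ((Filter.eventually_gt_atTop (16 * K ^ 2 * Real.log K)).and
    (Filter.eventually_ge_atTop (2:ℝ)))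
  obtain ⟨s, hs⟩ := (tendsto_natCast_atTop_atTop (R := ℝ)).eventually h2 |>.exists
  obtain ⟨hs1, hs2, hs3⟩ := hs
  refine ⟨s, by exact_mod_cast hs3, ?_⟩
  have hspos : (0:ℝ) < s := by linarith
  rw [Real.norm_eq_abs, Real.norm_eq_abs, id, abs_of_pos hspos] at hs1
  have hs4 := (le_abs_self _).trans hs1
  have hs5 : 8 * K ^ 2 * (4 * Real.log s) ≤ s / 2 := by
    have := mul_le_mul_of_nonneg_left hs4 (by positivity : (0:ℝ) ≤ 8 * K ^ 2 * 4)
    have e : 8 * K ^ 2 * 4 * (1 / (64 * K ^ 2) * (s:ℝ)) = s / 2 := by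
      field_simp
      ring
    rw [e] at this
    linarith
  nlinarith

lemma cliqueStar_edges {n a : ℕ} (ha : 1 ≤ a) (han : a ≤ n) :
    (cliqueStar n a).edgeSet.ncard ≤ a ^ 2 + n := by
  classical
  let z : Fin n := ⟨0, by omega⟩
  let S : Finset (Sym2 (Fin n)) :=
    ((univ : Finset (Fin a × Fin a)).image (fun p => s(Fin.castLE han p.1, Fin.castLE han p.2))) ∪
    ((univ : Finset (Fin n)).image (fun v => s(z, v)))
  have hS : S.card ≤ a ^ 2 + n := by
    refine (Finset.card_union_le _ _).trans (Nat.add_le_add ?_ ?_)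
    · refine Finset.card_image_le.trans ?_
      rw [Finset.card_univ, Fintype.card_prod, Fintype.card_fin, sq]
    · refine Finset.card_image_le.trans ?_
      rw [Finset.card_univ, Fintype.card_fin]
  have hsub : (cliqueStar n a).edgeSet ⊆ (S : Set (Sym2 (Fin n))) := by
    intro e he
    induction e using Sym2.ind with
    | _ u v =>
      rw [SimpleGraph.mem_edgeSet] at he
      obtain ⟨_, h⟩ := he
      rw [Finset.mem_coe, Finset.mem_union, Finset.mem_image, Finset.mem_image]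
      rcases h with h | h | ⟨h1, h2⟩
      · right
        refine ⟨v, Finset.mem_univ _, ?_⟩
        have : u = z := Fin.ext h
        rw [this]
      · right
        refine ⟨u, Finset.mem_univ _, ?_⟩
        have : v = z := Fin.ext h
        rw [this]
        exact Sym2.eq_swap
      · left
        exact ⟨(⟨u.val, h1⟩, ⟨v.val, h2⟩), Finset.mem_univ _, rfl⟩
  calc (cliqueStar n a).edgeSet.ncard ≤ (S : Set (Sym2 (Fin n))).ncard :=
        Set.ncard_le_ncard hsub (Finset.finite_toSet _)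
    _ = S.card := Set.ncard_coe_finset S
    _ ≤ a ^ 2 + n := hS

lemma cliqueStar_dominating {n a : ℕ} (hn : 0 < n) (v : Fin n) (hv : v ≠ ⟨0, hn⟩) :
    (cliqueStar n a).Adj ⟨0, hn⟩ v := ⟨hv.symm, Or.inl rfl⟩

lemma cliqueStar_connected {n a : ℕ} (hn : 0 < n) : (cliqueStar n a).Connected := by
  rw [SimpleGraph.connected_iff_exists_forall_reachable]
  refine ⟨⟨0, hn⟩, ?_⟩
  intro v
  by_cases hv : v = ⟨0, hn⟩
  · rw [hv]
  · exact (cliqueStar_dominating hn v hv).reachable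

lemma cliqueStar_no_isolated {n a : ℕ} (hn : 2 ≤ n) (v : Fin n) :
    ∃ w, (cliqueStar n a).Adj v w := by
  by_cases hv : v = ⟨0, by omega⟩
  · refine ⟨⟨1, by omega⟩, ?_⟩
    rw [hv]
    apply cliqueStar_dominating
    intro h
    have := congrArg Fin.val h
    simp at this
  · exact ⟨⟨0, by omega⟩, (cliqueStar_dominating (by omega) v hv).symm⟩

/-- The main lower bound. -/
lemma main (C : ℝ) : ∃ (n : ℕ) (G : SimpleGraph (Fin n)), G.Connected ∧ (∀ v, ∃ w, G.Adj v w) ∧
    ∀ N : ℕ, Good G N → C * ((G.edgeSet.ncard : ℝ) / Real.sqrt n + n) < N := by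
  -- the constant
  set K : ℝ := 3 * max C 1 with hK
  have hK1 : 1 ≤ K := by
    have := le_max_right C 1
    rw [hK]; linarith
  have hCK : C ≤ K / 3 := by
    have := le_max_left C 1
    rw [hK]; linarith
  obtain ⟨s, hs2, hs⟩ := exists_large K hK1
  have hsR : (2:ℝ) ≤ s := by exact_mod_cast hs2
  have hspos : (0:ℝ) < s := by linarith
  have han : s ^ 3 ≤ s ^ 4 := Nat.pow_le_pow_right (by omega) (by norm_num)
  have hs3 : 8 ≤ s ^ 3 := by
    calc 8 = 2 ^ 3 := by norm_num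
      _ ≤ s ^ 3 := Nat.pow_le_pow_left hs2 3
  refine ⟨s ^ 4, cliqueStar (s ^ 4) (s ^ 3), cliqueStar_connected (by positivity),
    cliqueStar_no_isolated (by omega), ?_⟩
  intro N hN
  -- N is at least 4
  have hNn : s ^ 4 ≤ N := by
    -- a copy must exist
    obtain ⟨f, hf⟩ := hN.1
    obtain ⟨φ, _⟩ := hN.2 f hf
    have := Fintype.card_le_of_embedding φ
    simpa using this
  have hN4 : 4 ≤ N := by omega
  by_contra hcon
  push Not at hcon
  -- the right-hand side is at most K s^4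
  have hedges : ((cliqueStar (s ^ 4) (s ^ 3)).edgeSet.ncard : ℝ) ≤ (s:ℝ) ^ 6 + (s:ℝ) ^ 4 := by
    have := cliqueStar_edges (n := s ^ 4) (a := s ^ 3) (by omega) han
    have h2 : (((cliqueStar (s ^ 4) (s ^ 3)).edgeSet.ncard : ℕ) : ℝ)
        ≤ (((s ^ 3) ^ 2 + s ^ 4 : ℕ) : ℝ) := by exact_mod_cast this
    refine h2.trans (le_of_eq ?_)
    push_cast
    ring
  have hsqrt : Real.sqrt ((s ^ 4 : ℕ) : ℝ) = (s:ℝ) ^ 2 := by
    push_cast
    rw [show (s:ℝ) ^ 4 = ((s:ℝ) ^ 2) ^ 2 by ring]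
    exact Real.sqrt_sq (by positivity)
  have hquot : ((cliqueStar (s ^ 4) (s ^ 3)).edgeSet.ncard : ℝ) / Real.sqrt ((s ^ 4 : ℕ) : ℝ)
      + ((s ^ 4 : ℕ) : ℝ) ≤ 3 * (s:ℝ) ^ 4 := by
    rw [hsqrt]
    have h1 : ((cliqueStar (s ^ 4) (s ^ 3)).edgeSet.ncard : ℝ) / (s:ℝ) ^ 2
        ≤ ((s:ℝ) ^ 6 + (s:ℝ) ^ 4) / (s:ℝ) ^ 2 :=
      div_le_div_of_nonneg_right hedges (by positivity)
    have h2 : ((s:ℝ) ^ 6 + (s:ℝ) ^ 4) / (s:ℝ) ^ 2 = (s:ℝ) ^ 4 + (s:ℝ) ^ 2 := by
      field_simp
    have h3 : (s:ℝ) ^ 2 ≤ (s:ℝ) ^ 4 := pow_le_pow_right₀ (by linarith) (by norm_num)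
    push_cast
    rw [h2] at h1
    linarith
  have hnonneg : 0 ≤ ((cliqueStar (s ^ 4) (s ^ 3)).edgeSet.ncard : ℝ) /
      Real.sqrt ((s ^ 4 : ℕ) : ℝ) + ((s ^ 4 : ℕ) : ℝ) := by positivity
  have hNK : (N : ℝ) ≤ K * (s:ℝ) ^ 4 := by
    refine hcon.trans ?_
    have h1 := mul_le_mul_of_nonneg_right hCK hnonneg
    have h2 := mul_le_mul_of_nonneg_left hquot (by linarith : (0:ℝ) ≤ K / 3)
    linarith
  have hNpos : (0:ℝ) < N := by
    have : (4:ℝ) ≤ N := by exact_mod_cast hN4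
    linarith
  have hKpos : (0:ℝ) < K := by linarith
  have hlog : Real.log N ≤ Real.log K + 4 * Real.log s := by
    have h1 : Real.log N ≤ Real.log (K * (s:ℝ) ^ 4) := Real.log_le_log hNpos hNK
    rw [Real.log_mul hKpos.ne' (by positivity), Real.log_pow] at h1
    push_cast at h1
    exact h1
  have hlt : ((s ^ 3 : ℕ) : ℝ) * Real.log N < ((s ^ 3 : ℕ) : ℝ) ^ 4 / (8 * (N : ℝ) ^ 2) := by
    have h1 : (N:ℝ) ^ 2 ≤ (K * (s:ℝ) ^ 4) ^ 2 := pow_le_pow_left₀ hNpos.le hNK 2
    have h2 : ((s ^ 3 : ℕ) : ℝ) ^ 4 / (8 * (K * (s:ℝ) ^ 4) ^ 2)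
        ≤ ((s ^ 3 : ℕ) : ℝ) ^ 4 / (8 * (N : ℝ) ^ 2) := by
      apply div_le_div_of_nonneg_left (by positivity) (by positivity)
      linarith
    have h3 : ((s ^ 3 : ℕ) : ℝ) ^ 4 / (8 * (K * (s:ℝ) ^ 4) ^ 2) = (s:ℝ) ^ 3 * (s / (8 * K ^ 2)) := by
      push_cast
      field_simp
    rw [h3] at h2
    refine lt_of_lt_of_le ?_ h2
    push_cast
    apply mul_lt_mul_of_pos_left _ (by positivity)
    rw [lt_div_iff₀ (by positivity)]
    refine lt_of_le_of_lt ?_ hs
    have := mul_le_mul_of_nonneg_left hlog (by positivity : (0:ℝ) ≤ 8 * K ^ 2)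
    linarith
  have hnum := numeric (N := N) (a := s ^ 3) (by omega) hN4 hlt
  have hgood := good_imp han hN4 hN
  omega

/-- The statement of Q1. -/
def Q1 : Prop :=
  ∃ C : ℝ, ∀ (n : ℕ) (G : SimpleGraph (Fin n)), (∀ v, ∃ w, G.Adj v w) →
    ∃ N : ℕ, g0 G = N ∧ (N : ℝ) ≤ C * ((G.edgeSet.ncard : ℝ) / Real.sqrt n + n)

/-- Q1 is false; in fact for every `C` there is a connected graph `G` with at least two vertices
(so without isolated vertices) such that every `N` satisfying the condition in the definition of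
`g_0(G)` exceeds `C (m / sqrt n + n)`. -/
theorem result :
    (∀ C : ℝ, ∃ (n : ℕ) (G : SimpleGraph (Fin n)), G.Connected ∧ (∀ v, ∃ w, G.Adj v w) ∧
      ∀ N : ℕ, Good G N → C * ((G.edgeSet.ncard : ℝ) / Real.sqrt n + n) < N) ∧ ¬ Q1 := by
  refine ⟨main, ?_⟩
  rintro ⟨C, hC⟩
  obtain ⟨n, G, _, hG, hN⟩ := main C
  obtain ⟨N, hg, hle⟩ := hC n G hG
  have h1 : ((N + 1 : ℕ) : ℕ∞) ≤ g0 G := by
    unfold g0
    refine le_iInf₂ ?_
    intro N' hN'
    have h2 := hN N' hN'
    have h3 : (N : ℝ) < N' := lt_of_le_of_lt hle h2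
    have h4 : N < N' := by exact_mod_cast h3
    exact_mod_cast h4
  rw [hg] at h1
  have h5 : N + 1 ≤ N := by exact_mod_cast h1
  omega

end Pool.Agent.Results.MP_48292c_co.FreeCopiesDisproof
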